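import Pool.Agent.Helper684.GX.NevMetric
import Pool.Agent.Helper684.GX.Ergo.Defs

attribute [local instance] Pool.Agent.Helper684.GX.Nev.leafInst

/-!
The metric of the tangent bundle of a singular foliation, along the tangent discs.
-/

set_option autoImplicit false

open Set Metric Filter Topology MeasureTheory
open scoped Manifold ComplexConjugate
open Pool.Agent.Helper684.GX.Nev Pool.Agent.Helper684.GX.Ergo

namespace Pool.Agent.Helper684.GX.Wf

variable {E M : Type*} [NormedAddCommGroup E] [NormedSpace ℂ E] [TopologicalSpace M]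
  [ChartedSpace E M]

/-- finitely many generators, with bump functions in the coordinates, which cover the manifold -/
structure Cover (SF : SingularFoliation E M) where
  n : ℕ
  G : Fin n → Generator SF.toFoliation
  mem : ∀ j, G j ∈ SF.gens
  b : Fin n → E → ℝ
  smooth : ∀ j, ContDiff ℝ ((⊤ : ℕ∞) : WithTop ℕ∞) (b j)
  nonneg : ∀ j y, 0 ≤ b j y
  cpt : ∀ j, HasCompactSupport (b j)
  supp : ∀ j, tsupport (b j) ⊆ (G j).e.target
  pos : ∀ x : M, ∃ j, x ∈ (G j).e.source ∧ 0 < b j ((G j).e x)

/-- the square of the length of the derivative at `z` of the tangent disc `ψ`, for the metric of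
the tangent bundle of the foliation given by the generators and the bump functions -/
noncomputable def Nn {SF : SingularFoliation E M} (C : Cover SF) (ψ : ℂ → M) (z : ℂ) : ℝ :=
  open Classical in
  ∑ j, if ψ z ∈ (C.G j).e.source then
    C.b j ((C.G j).e (ψ z)) * ‖deriv (fun t => (C.G j).e (ψ t)) z‖ ^ 2 /
      ‖(C.G j).Z ((C.G j).e (ψ z))‖ ^ 2 else 0

end Pool.Agent.Helper684.GX.Wf
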