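import Pool.Agent.Helper684.GX.Wf.K3

attribute [local instance] Pool.Agent.Helper684.GX.Nev.leafInst

set_option autoImplicit false

open Set Metric Filter Topology MeasureTheory
open scoped Manifold ComplexConjugate NNReal
open Pool.Agent.Helper684.GX.Nev Pool.Agent.Helper684.GX.Ergo

namespace Pool.Agent.Helper684.GX.Wf



/-- disc automorphism -/
noncomputable def mob (a z : ℂ) : ℂ := (z + a) / (1 + conj a * z)

variable {E M : Type*} [NormedAddCommGroup E] [NormedSpace ℂ E] [TopologicalSpace M]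
  [ChartedSpace E M]

theorem dir_smul {F : Foliation E M} {x : M} (hx : x ∉ F.sing) {v : TangentSpace 𝓘(ℂ, E) x}
    (hv : v ∈ F.dir x) (c : ℂ) : (c • v : TangentSpace 𝓘(ℂ, E) x) ∈ F.dir x := by
  obtain ⟨e, he, w, hw, hg⟩ := F.flowBox x hx
  obtain ⟨c', hc'⟩ := ((hg x he.2).2 hx v).1 hv
  refine ((hg x he.2).2 hx _).2 ⟨c * c', ?_⟩
  have h1 : chartDeriv e x (c • v) = c • chartDeriv e x v := by
    unfold chartDeriv
    exact (mfderiv 𝓘(ℂ, E) 𝓘(ℂ, E) e x).map_smul c v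
  rw [h1, hc', smul_smul]

theorem discDeriv_comp {φ : ℂ → M} {g : ℂ → ℂ} {ξ : ℂ}
    (hφ : MDifferentiableAt 𝓘(ℂ, ℂ) 𝓘(ℂ, E) φ (g ξ)) (hg : DifferentiableAt ℂ g ξ) :
    (discDeriv (E := E) (fun z => φ (g z)) ξ 1 : E) =
      deriv g ξ • (discDeriv (E := E) φ (g ξ) 1 : E) := by
  have h1 : mfderiv 𝓘(ℂ, ℂ) 𝓘(ℂ, E) (φ ∘ g) ξ =
      (mfderiv 𝓘(ℂ, ℂ) 𝓘(ℂ, E) φ (g ξ)).comp (mfderiv 𝓘(ℂ, ℂ) 𝓘(ℂ, ℂ) g ξ) :=
    mfderiv_comp ξ hφ (mdifferentiableAt_iff_differentiableAt.2 hg)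
  rw [mfderiv_eq_fderiv] at h1
  have h4 := congrArg (fun L : ℂ →L[ℂ] E => L 1) h1
  have h5 : (discDeriv (E := E) (fun z => φ (g z)) ξ 1 : E) =
      discDeriv (E := E) φ (g ξ) (deriv g ξ) := by
    have h6 : fderiv ℂ g ξ 1 = deriv g ξ := fderiv_apply_one_eq_deriv
    rw [← h6]
    exact h4
  rw [h5]
  have h7 := discDeriv_smul (E := E) φ (g ξ) (deriv g ξ) 1
  rw [mul_one] at h7
  exact h7

/-- precomposition of a universal covering with an automorphism of the disc -/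
theorem universalCovering_comp {F : Foliation E M} {φ : ℂ → M}
    (hφ : F.IsUniversalCovering φ) {g k : ℂ → ℂ} (hg : DifferentiableOn ℂ g (ball 0 1))
    (hk : DifferentiableOn ℂ k (ball 0 1)) (hgm : MapsTo g (ball 0 1) (ball 0 1))
    (hkm : MapsTo k (ball 0 1) (ball 0 1)) (hgk : ∀ z ∈ ball (0 : ℂ) 1, g (k z) = z)
    (hkg : ∀ z ∈ ball (0 : ℂ) 1, k (g z) = z) :
    F.IsUniversalCovering (fun z => φ (g z)) := by
  have hgd : ∀ ξ ∈ ball (0 : ℂ) 1, DifferentiableAt ℂ g ξ := fun ξ hξ =>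
    hg.differentiableAt (isOpen_ball.mem_nhds hξ)
  have hkd : ∀ ξ ∈ ball (0 : ℂ) 1, DifferentiableAt ℂ k ξ := fun ξ hξ =>
    hk.differentiableAt (isOpen_ball.mem_nhds hξ)
  have hgne : ∀ ξ ∈ ball (0 : ℂ) 1, deriv g ξ ≠ 0 := by
    intro ξ hξ h0
    have h1 : HasDerivAt (k ∘ g) (deriv k (g ξ) * deriv g ξ) ξ :=
      (hkd _ (hgm hξ)).hasDerivAt.comp ξ (hgd ξ hξ).hasDerivAt
    have h2 : HasDerivAt (k ∘ g) 1 ξ := by
      refine (hasDerivAt_id ξ).congr_of_eventuallyEq ?_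
      filter_upwards [isOpen_ball.mem_nhds hξ] with z hz
      exact hkg z hz
    have h3 := h1.unique h2
    rw [h0, mul_zero] at h3
    exact zero_ne_one h3
  have hdd : ∀ ξ ∈ ball (0 : ℂ) 1, (discDeriv (E := E) (fun z => φ (g z)) ξ 1 : E) =
      deriv g ξ • (discDeriv (E := E) φ (g ξ) 1 : E) := fun ξ hξ =>
    discDeriv_comp (hφ.tangent.mdiffAt (hgm hξ)) (hgd ξ hξ)
  have htan : F.IsTangentDisc (fun z => φ (g z)) := by
    refine ⟨fun ξ hξ => ?_, fun ξ hξ => ?_⟩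
    · have h1 : MDifferentiableAt 𝓘(ℂ, ℂ) 𝓘(ℂ, ℂ) g ξ :=
        mdifferentiableAt_iff_differentiableAt.2 (hgd ξ hξ)
      exact ((hφ.tangent.mdiffAt (hgm hξ)).comp ξ h1).mdifferentiableWithinAt
    · obtain ⟨h1, h2⟩ := hφ.tangent.2 (g ξ) (hgm hξ)
      refine ⟨h1, ?_⟩
      have h3 := dir_smul h1 h2 (deriv g ξ)
      have h4 := hdd ξ hξ
      exact (Eq.symm h4) ▸ h3
  refine ⟨htan, fun ξ hξ h0 => ?_, ?_⟩
  · have h4 := hdd ξ hξ
    have h5 : (discDeriv (E := E) (fun z => φ (g z)) ξ 1 : E) = 0 := h0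
    rw [h5] at h4
    rcases smul_eq_zero.1 h4.symm with h6 | h6
    · exact hgne ξ hξ h6
    · exact hφ.immersion (g ξ) (hgm hξ) h6
  · have hz0 : (0 : ℂ) ∈ ball (0 : ℂ) 1 := mem_ball_self one_pos
    have hleaf : F.leaf (F.toLeafSpace (φ (g 0))) = F.leaf (F.toLeafSpace (φ 0)) := by
      have h1 : Joined (F.toLeafSpace (φ 0)) (F.toLeafSpace (φ (g 0))) :=
        (PathConnectedSpace.joined (⟨0, hz0⟩ : ball (0 : ℂ) 1) ⟨g 0, hgm hz0⟩).map
          hφ.tangent.continuous_leaf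
      exact (pathComponent_congr h1.symm).symm
    show IsCoveringMapOn (fun ξ : ball (0 : ℂ) 1 => F.toLeafSpace (φ (g ξ)))
      (F.leaf (F.toLeafSpace (φ (g 0))))
    rw [hleaf]
    let G : (ball (0 : ℂ) 1) ≃ₜ (ball (0 : ℂ) 1) :=
      { toFun := fun z => ⟨g z, hgm z.2⟩
        invFun := fun z => ⟨k z, hkm z.2⟩
        left_inv := fun z => Subtype.ext (hkg z z.2)
        right_inv := fun z => Subtype.ext (hgk z z.2)
        continuous_toFun := by
          refine Continuous.subtype_mk ?_ _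
          exact continuousOn_iff_continuous_domRestrict.1 hg.continuousOn
        continuous_invFun := by
          refine Continuous.subtype_mk ?_ _
          exact continuousOn_iff_continuous_domRestrict.1 hk.continuousOn }
    exact hφ.covering.comp_homeomorph G

theorem mob_key {a z : ℂ} (ha : ‖a‖ < 1) (hz : ‖z‖ < 1) : ‖z + a‖ < ‖1 + conj a * z‖ := by
  have h1 : ‖1 + conj a * z‖ ^ 2 - ‖z + a‖ ^ 2 = (1 - ‖a‖ ^ 2) * (1 - ‖z‖ ^ 2) := by
    simp only [← Complex.normSq_eq_norm_sq, Complex.normSq_apply, Complex.add_re, Complex.add_im,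
      Complex.mul_re, Complex.mul_im, Complex.conj_re, Complex.conj_im, Complex.one_re,
      Complex.one_im]
    ring
  have h2 : 0 < (1 - ‖a‖ ^ 2) * (1 - ‖z‖ ^ 2) := by
    have h3 : ‖a‖ ^ 2 < 1 := by nlinarith [norm_nonneg a]
    have h4 : ‖z‖ ^ 2 < 1 := by nlinarith [norm_nonneg z]
    exact mul_pos (by linarith) (by linarith)
  exact lt_of_pow_lt_pow_left₀ 2 (norm_nonneg _) (by linarith)

theorem mob_den_ne {a z : ℂ} (ha : ‖a‖ < 1) (hz : ‖z‖ < 1) : 1 + conj a * z ≠ 0 := by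
  intro h0
  have := mob_key ha hz
  rw [h0, norm_zero] at this
  exact absurd this (not_lt.2 (norm_nonneg _))

theorem mob_maps {a : ℂ} (ha : a ∈ ball (0 : ℂ) 1) : MapsTo (mob a) (ball 0 1) (ball 0 1) := by
  intro z hz
  rw [mem_ball_zero_iff] at ha hz ⊢
  unfold mob
  rw [norm_div, div_lt_one (norm_pos_iff.2 (mob_den_ne ha hz))]
  exact mob_key ha hz

theorem mob_diff {a : ℂ} (ha : a ∈ ball (0 : ℂ) 1) : DifferentiableOn ℂ (mob a) (ball 0 1) := by
  unfold mob
  refine DifferentiableOn.div (differentiableOn_id.add_const a)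
    ((differentiableOn_id.const_mul _).const_add 1) fun z hz => ?_
  rw [mem_ball_zero_iff] at ha hz
  exact mob_den_ne ha hz

theorem mob_inv {a : ℂ} (ha : a ∈ ball (0 : ℂ) 1) {z : ℂ} (hz : z ∈ ball (0 : ℂ) 1) :
    mob (-a) (mob a z) = z := by
  have ha' : (-a) ∈ ball (0 : ℂ) 1 := by
    rw [mem_ball_zero_iff] at ha ⊢
    rwa [norm_neg]
  have hw := mob_maps ha hz
  rw [mem_ball_zero_iff] at ha hz ha' hw
  have h1 := mob_den_ne ha hz
  have h2 := mob_den_ne ha' hw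
  have h3 : (1 : ℂ) - conj a * a ≠ 0 := by
    have h5 : (1 : ℂ) - conj a * a = ((1 - ‖a‖ ^ 2 : ℝ) : ℂ) := by
      rw [mul_comm, Complex.mul_conj, Complex.normSq_eq_norm_sq]
      push_cast
      rfl
    have h6 : 0 < 1 - ‖a‖ ^ 2 := by nlinarith [norm_nonneg a]
    rw [h5]
    exact_mod_cast h6.ne'
  have h4 : mob a z * (1 + conj a * z) = z + a := by
    unfold mob
    exact div_mul_cancel₀ _ h1
  have h7 : mob (-a) (mob a z) * (1 + conj (-a) * mob a z) = mob a z + -a := by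
    unfold mob at h2 ⊢
    exact div_mul_cancel₀ _ h2
  apply mul_right_cancel₀ h2
  rw [h7, map_neg]
  apply mul_right_cancel₀ h1
  have h8 : (mob a z + -a) * (1 + conj a * z) = z * (1 - conj a * a) := by
    rw [add_mul, h4]; ring
  have h9 : z * (1 + -conj a * mob a z) * (1 + conj a * z) = z * (1 - conj a * a) := by
    have : z * (1 + -conj a * mob a z) * (1 + conj a * z) =
        z * (1 + conj a * z) - z * conj a * (mob a z * (1 + conj a * z)) := by ring
    rw [this, h4]; ring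
  rw [h8, h9]

/-- changing the base point of a universal covering -/
theorem universalCovering_mob [IsManifold 𝓘(ℂ, E) 1 M] {F : Foliation E M} {φ : ℂ → M}
    (hφ : F.IsUniversalCovering φ) {a : ℂ} (ha : a ∈ ball (0 : ℂ) 1) :
    F.IsUniversalCovering (fun z => φ (mob a z)) := by
  have ha' : (-a) ∈ ball (0 : ℂ) 1 := by
    rw [mem_ball_zero_iff] at ha ⊢
    rwa [norm_neg]
  refine universalCovering_comp hφ (mob_diff ha) (mob_diff ha') (mob_maps ha) (mob_maps ha')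
    (fun z hz => ?_) (fun z hz => mob_inv ha hz)
  have := mob_inv ha' hz
  rwa [neg_neg] at this

/-- universal coverings with the same base point differ by a rotation -/
theorem universalCovering_unique [IsManifold 𝓘(ℂ, E) 1 M] {F : Foliation E M} {φ ψ : ℂ → M}
    (hφ : F.IsUniversalCovering φ) (hψ : F.IsUniversalCovering ψ) (h0 : φ 0 = ψ 0) :
    ∃ c : ℂ, ‖c‖ = 1 ∧ ∀ z ∈ ball (0 : ℂ) 1, ψ z = φ (c * z) := by
  have hz0 : (0 : ℂ) ∈ ball (0 : ℂ) 1 := mem_ball_self one_pos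
  obtain ⟨f, hfc, hfm, hf0, hflift⟩ := exists_lift hφ hψ.tangent hz0 h0.symm
  have hfd := lift_differentiable hφ hψ.tangent hfc hfm hflift
  obtain ⟨g, hgc, hgm, hg0, hglift⟩ := exists_lift hψ hφ.tangent hz0 h0
  have hgd := lift_differentiable hψ hφ.tangent hgc hgm hglift
  have hf1 : ‖deriv f 0‖ ≤ 1 := by
    have := schwarz_pick hfd hfm
    rw [hf0] at this
    simpa using this
  have hg1 : ‖deriv g 0‖ ≤ 1 := by
    have := schwarz_pick hgd hgm
    rw [hg0] at this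
    simpa using this
  -- composite g ∘ f... φ (f (g z)) = ψ (g z) = φ z
  have hfd0 : DifferentiableAt ℂ f 0 := hfd.differentiableAt (isOpen_ball.mem_nhds hz0)
  have hgd0 : DifferentiableAt ℂ g 0 := hgd.differentiableAt (isOpen_ball.mem_nhds hz0)
  have hd1 : HasDerivAt (fun z => f (g z)) (deriv f 0 * deriv g 0) 0 := by
    have h1 : HasDerivAt f (deriv f 0) (g 0) := by rw [hg0]; exact hfd0.hasDerivAt
    exact h1.comp 0 hgd0.hasDerivAt
  have hprod : deriv f 0 * deriv g 0 = 1 := by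
    have h1 : (discDeriv (E := E) (fun z => φ (f (g z))) 0 1 : E) =
        (deriv f 0 * deriv g 0) • (discDeriv (E := E) φ 0 1 : E) := by
      have h2 := discDeriv_comp (E := E) (φ := φ) (g := fun z => f (g z)) (ξ := 0)
        (by
          show MDifferentiableAt 𝓘(ℂ, ℂ) 𝓘(ℂ, E) φ (f (g 0))
          rw [hg0, hf0]; exact hφ.tangent.mdiffAt hz0) hd1.differentiableAt
      rw [hd1.deriv] at h2
      have h3 : f (g 0) = 0 := by rw [hg0, hf0]
      have h4 : ∀ η : ℂ, η = 0 → (discDeriv (E := E) φ η 1 : E) = (discDeriv (E := E) φ 0 1 : E) := by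
        rintro η rfl; rfl
      have h5 : (discDeriv (E := E) φ (f (g 0)) 1 : E) = (discDeriv (E := E) φ 0 1 : E) := h4 _ h3
      exact h2.trans (congrArg (fun v : E => (deriv f 0 * deriv g 0) • v) h5)
    have h2 : (fun z => φ (f (g z))) =ᶠ[𝓝 0] φ := by
      filter_upwards [isOpen_ball.mem_nhds hz0] with z hz
      rw [hflift _ (hgm hz), hglift z hz]
    have h3 : (discDeriv (E := E) (fun z => φ (f (g z))) 0 1 : E) =
        (discDeriv (E := E) φ 0 1 : E) := by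
      have h4 : mfderiv 𝓘(ℂ, ℂ) 𝓘(ℂ, E) (fun z => φ (f (g z))) 0 =
        mfderiv 𝓘(ℂ, ℂ) 𝓘(ℂ, E) φ 0 := h2.mfderiv_eq
      exact congrArg (fun L : ℂ →L[ℂ] E => L 1) h4
    rw [h3] at h1
    have h5 : ((deriv f 0 * deriv g 0 - 1) • (discDeriv (E := E) φ 0 1 : E) : E) = 0 := by
      rw [sub_smul, one_smul, ← h1, sub_self]
    rcases smul_eq_zero.1 h5 with h6 | h6
    · exact sub_eq_zero.1 h6
    · exact absurd h6 (hφ.immersion 0 hz0)
  have hnorm : ‖deriv f 0‖ = 1 := by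
    have h1 : ‖deriv f 0‖ * ‖deriv g 0‖ = 1 := by
      rw [← norm_mul, hprod, norm_one]
    refine le_antisymm hf1 ?_
    nlinarith [norm_nonneg (deriv f 0), norm_nonneg (deriv g 0)]
  refine ⟨deriv f 0, hnorm, ?_⟩
  have haff := Complex.affine_of_mapsTo_ball_of_norm_dslope_eq_div (f := f) (c := 0) (R₁ := 1)
    (R₂ := 1) (z₀ := 0) hfd (by rw [hf0]; exact hfm.mono_right ball_subset_closedBall) hz0 (by
      rw [dslope_same, hnorm]; norm_num)
  intro z hz
  have h1 := haff hz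
  rw [← hflift z hz]
  congr 1
  simp only [hf0, dslope_same, sub_zero, smul_eq_mul, zero_add] at h1
  rw [h1]; ring

/-- rotating a universal covering -/
theorem universalCovering_rot [IsManifold 𝓘(ℂ, E) 1 M] {F : Foliation E M} {φ : ℂ → M}
    (hφ : F.IsUniversalCovering φ) {c : ℂ} (hc : ‖c‖ = 1) :
    F.IsUniversalCovering (fun z => φ (c * z)) := by
  have hc0 : c ≠ 0 := by
    intro h; rw [h, norm_zero] at hc; exact zero_ne_one hc
  refine universalCovering_comp hφ (g := fun z => c * z) (k := fun z => c⁻¹ * z)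
    (differentiableOn_id.const_mul c) (differentiableOn_id.const_mul c⁻¹) ?_ ?_ ?_ ?_
  · intro z hz
    rw [mem_ball_zero_iff] at hz ⊢
    rw [norm_mul, hc, one_mul]; exact hz
  · intro z hz
    rw [mem_ball_zero_iff] at hz ⊢
    rw [norm_mul, norm_inv, hc, inv_one, one_mul]; exact hz
  · intro z _
    exact mul_inv_cancel_left₀ hc0 z
  · intro z _
    exact inv_mul_cancel_left₀ hc0 z


end Pool.Agent.Helper684.GX.Wf
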