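import Pool.Agent.Helper684.GX.Wf.L1
import Pool.Agent.Helper684.GX.Wf.Holo

attribute [local instance] Pool.Agent.Helper684.GX.Nev.leafInst
set_option autoImplicit false

open Set Metric Filter Topology MeasureTheory
open scoped Manifold ComplexConjugate NNReal
open Pool.Agent.Helper684.GX.Nev Pool.Agent.Helper684.GX.Ergo

namespace Pool.Agent.Helper684.GX.Wf


end Pool.Agent.Helper684.GX.Wf
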