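import Pool.Agent.Helper684.GX.Wf.W1

attribute [local instance] Pool.Agent.Helper684.GX.Nev.leafInst

set_option autoImplicit false

open Set Metric Filter Topology MeasureTheory
open scoped Manifold ComplexConjugate NNReal
open Pool.Agent.Helper684.GX.Nev Pool.Agent.Helper684.GX.Ergo

namespace Pool.Agent.Helper684.GX.Wf


variable {E M : Type*} [NormedAddCommGroup E] [NormedSpace ℂ E] [TopologicalSpace M]
  [ChartedSpace E M] [IsManifold 𝓘(ℂ, E) 1 M] [FiniteDimensional ℂ E] [T2Space M] [CompactSpace M]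
  {SF : SingularFoliation E M}


/-- the coefficient of the derivative in a generator -/
theorem exists_coeff {ψ : ℂ → M} (hψ : SF.toFoliation.IsTangentDisc ψ)
    (G : Generator SF.toFoliation) {z : ℂ} (hz : z ∈ ball (0 : ℂ) 1) (hG : ψ z ∈ G.e.source) :
    ∃ a : ℂ → ℂ, AnalyticAt ℂ a z ∧ ∀ᶠ t in 𝓝 z, ψ t ∈ G.e.source ∧
      HasDerivAt (fun t => G.e (ψ t)) (a t • G.Z (G.e (ψ t))) t ∧
      (a t = 0 → discDeriv (E := E) ψ t 1 = 0) := by
  have hcomp : CompleteSpace E := FiniteDimensional.complete ℂ E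
  have hya : AnalyticAt ℂ (fun t => G.e (ψ t)) z :=
    analyticAt_chart (fun w hw => hψ.mdiffAt hw) hz ⟨G.mem, hG⟩
  have hnear : ∀ᶠ t in 𝓝 z, t ∈ ball (0 : ℂ) 1 ∧ ψ t ∈ G.e.source := by
    have h1 : ∀ᶠ t in 𝓝 z, t ∈ ball (0 : ℂ) 1 := isOpen_ball.mem_nhds hz
    have h2 : ∀ᶠ t in 𝓝 z, ψ t ∈ G.e.source :=
      (hψ.contAt hz).eventually (G.e.open_source.mem_nhds hG)
    exact h1.and h2
  have hZne : ∀ t, t ∈ ball (0 : ℂ) 1 → ψ t ∈ G.e.source → G.Z (G.e (ψ t)) ≠ 0 := by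
    intro t ht hs h0
    exact (hψ.2 t ht).1 ((G.gen (ψ t) hs).1.mpr h0)
  obtain ⟨l, hl⟩ : ∃ l : E →L[ℂ] ℂ, l (G.Z (G.e (ψ z))) ≠ 0 :=
    SeparatingDual.exists_ne_zero (hZne z hz hG)
  have hZa : AnalyticAt ℂ (fun t => G.Z (G.e (ψ t))) z := by
    rw [Complex.analyticAt_iff_eventually_differentiableAt]
    filter_upwards [hnear, hya.eventually_analyticAt] with t ht hta
    have h1 : DifferentiableAt ℂ G.Z (G.e (ψ t)) :=
      (G.hol _ (G.e.map_source ht.2)).differentiableAt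
        (G.e.open_target.mem_nhds (G.e.map_source ht.2))
    exact h1.comp t hta.differentiableAt
  have hlZ : AnalyticAt ℂ (fun t => l (G.Z (G.e (ψ t)))) z := l.analyticAt _ |>.comp hZa
  have hld : AnalyticAt ℂ (fun t => l (deriv (fun t => G.e (ψ t)) t)) z :=
    l.analyticAt _ |>.comp hya.deriv
  refine ⟨fun t => l (deriv (fun t => G.e (ψ t)) t) / l (G.Z (G.e (ψ t))), hld.div hlZ hl, ?_⟩
  filter_upwards [hnear, hlZ.continuousAt.eventually_ne hl] with t ht htl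
  have hd : HasDerivAt (fun t => G.e (ψ t))
      ((l (deriv (fun t => G.e (ψ t)) t) / l (G.Z (G.e (ψ t)))) • G.Z (G.e (ψ t))) t := by
    obtain ⟨c, hc⟩ := hψ.exists_deriv G.gen ht.1 ⟨G.mem, ht.2⟩
    have h1 : l (deriv (fun t => G.e (ψ t)) t) / l (G.Z (G.e (ψ t))) = c := by
      rw [hc.deriv, map_smul, smul_eq_mul, mul_div_assoc, div_self htl, mul_one]
    rw [h1]
    exact hc
  refine ⟨ht.2, hd, ?_⟩
  intro h0
  rw [h0, zero_smul] at hd
  by_contra hne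
  exact chartDeriv_ne_zero ⟨G.mem, ht.2⟩ hne
    ((hasDerivAt_chart (hψ.mdiffAt ht.1) ⟨G.mem, ht.2⟩).unique hd)

theorem Nn_congr (C : Cover SF) {φ ψ : ℂ → M} {z : ℂ} (h : φ =ᶠ[𝓝 z] ψ) :
    Nn C φ z = Nn C ψ z := by
  unfold Nn
  apply Finset.sum_congr rfl
  intro j _
  have h1 : deriv (fun t => (C.G j).e (φ t)) z = deriv (fun t => (C.G j).e (ψ t)) z := by
    apply EventuallyEq.deriv_eq
    filter_upwards [h] with t ht
    rw [ht]
  rw [h1, h.eq_of_nhds]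

theorem Nn_comp (C : Cover SF) {ψ : ℂ → M} (hψ : SF.toFoliation.IsTangentDisc ψ) {h : ℂ → ℂ}
    {z : ℂ} (hh : DifferentiableAt ℂ h z) (hz : h z ∈ ball (0 : ℂ) 1) :
    Nn C (fun t => ψ (h t)) z = ‖deriv h z‖ ^ 2 * Nn C ψ (h z) := by
  unfold Nn
  rw [Finset.mul_sum]
  apply Finset.sum_congr rfl
  intro j _
  split_ifs with hj
  · have h1 := hasDerivAt_chart (hψ.mdiffAt hz) ⟨(C.G j).mem, hj⟩
    have h2 := h1.scomp z hh.hasDerivAt
    have h3 : deriv (fun t => (C.G j).e (ψ (h t))) z =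
        deriv h z • deriv (fun t => (C.G j).e (ψ t)) (h z) := by
      rw [h1.deriv]
      exact h2.deriv
    rw [h3, norm_smul, mul_pow]
    ring
  · rw [mul_zero]


end Pool.Agent.Helper684.GX.Wf
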