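import Pool.Agent.Helper684.GX.Wf.W2

attribute [local instance] Pool.Agent.Helper684.GX.Nev.leafInst

set_option autoImplicit false

open Set Metric Filter Topology MeasureTheory
open scoped Manifold ComplexConjugate NNReal
open Pool.Agent.Helper684.GX.Nev Pool.Agent.Helper684.GX.Ergo

namespace Pool.Agent.Helper684.GX.Wf


variable {E M : Type*} [NormedAddCommGroup E] [NormedSpace ℂ E] [TopologicalSpace M]
  [ChartedSpace E M] [IsManifold 𝓘(ℂ, E) 1 M] [FiniteDimensional ℂ E] [T2Space M] [CompactSpace M]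
  {SF : SingularFoliation E M}



/-- one term of the local formula -/
noncomputable def tm (C : Cover SF) (e0 : OpenPartialHomeomorph M E) (j : Fin C.n) (g : E → ℂ)
    (y : E) : ℝ :=
  open Classical in
  if e0.symm y ∈ (C.G j).e.source then C.b j ((C.G j).e (e0.symm y)) * ‖g y‖ ^ 2 else 0

theorem tm_nonneg (C : Cover SF) (e0 : OpenPartialHomeomorph M E) (j : Fin C.n) (g : E → ℂ)
    (y : E) : 0 ≤ tm C e0 j g y := by
  unfold tm
  split_ifs
  · exact mul_nonneg (C.nonneg j _) (by positivity)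
  · exact le_rfl

theorem tm_smooth (C : Cover SF) {e0 : OpenPartialHomeomorph M E}
    (he0 : e0 ∈ IsManifold.maximalAtlas 𝓘(ℂ, E) 1 M) (j : Fin C.n) {g : E → ℂ}
    (hg : DifferentiableOn ℂ g (e0.symm.trans (C.G j).e).source) :
    ContDiffOn ℝ 2 (tm C e0 j g) e0.target := by
  haveI : CompleteSpace E := FiniteDimensional.complete ℂ E
  intro y0 hy0
  apply ContDiffAt.contDiffWithinAt
  have hopen : IsOpen (e0.symm.trans (C.G j).e).source := (e0.symm.trans (C.G j).e).open_source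
  by_cases h : e0.symm y0 ∈ (C.G j).e.source
  · have hsrc : y0 ∈ (e0.symm.trans (C.G j).e).source := by
      rw [OpenPartialHomeomorph.trans_source]
      exact ⟨hy0, h⟩
    have h1 := contDiffOn_real_of_charts he0 (C.G j).mem
    have h2 := contDiffOn_real_of_differentiableOn hopen hg
    have h3 : ContDiffAt ℝ ((⊤ : ℕ∞) : WithTop ℕ∞) (e0.symm.trans (C.G j).e) y0 :=
      h1.contDiffAt (hopen.mem_nhds hsrc)
    have h4 : ContDiffAt ℝ ((⊤ : ℕ∞) : WithTop ℕ∞) g y0 := h2.contDiffAt (hopen.mem_nhds hsrc)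
    have h5 : ContDiffAt ℝ ((⊤ : ℕ∞) : WithTop ℕ∞)
        (fun y => C.b j ((e0.symm.trans (C.G j).e) y) * ‖g y‖ ^ 2) y0 :=
      ((C.smooth j).contDiffAt.comp y0 h3).mul (h4.norm_sq ℝ)
    have h6 : tm C e0 j g =ᶠ[𝓝 y0] fun y => C.b j ((e0.symm.trans (C.G j).e) y) * ‖g y‖ ^ 2 := by
      filter_upwards [hopen.mem_nhds hsrc] with y hy
      rw [OpenPartialHomeomorph.trans_source] at hy
      have hy2 : e0.symm y ∈ (C.G j).e.source := hy.2
      unfold tm
      rw [if_pos hy2]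
      rfl
    exact (h5.congr_of_eventuallyEq h6).of_le (by
      have : (2 : WithTop ℕ∞) = ((2 : ℕ∞) : WithTop ℕ∞) := rfl
      rw [this]
      exact WithTop.coe_le_coe.mpr le_top)
  · have hK : IsCompact ((C.G j).e.symm '' tsupport (C.b j)) :=
      (C.cpt j).isCompact.image_of_continuousOn ((C.G j).e.symm.continuousOn.mono (C.supp j))
    have hKc : IsClosed ((C.G j).e.symm '' tsupport (C.b j)) := hK.isClosed
    have hnot : e0.symm y0 ∉ (C.G j).e.symm '' tsupport (C.b j) := by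
      rintro ⟨w, hw, hw2⟩
      apply h
      rw [← hw2]
      exact (C.G j).e.map_target (C.supp j hw)
    have hcont : ContinuousAt e0.symm y0 := e0.symm.continuousAt hy0
    have h1 : ∀ᶠ y in 𝓝 y0, e0.symm y ∉ (C.G j).e.symm '' tsupport (C.b j) :=
      hcont.eventually (hKc.isOpen_compl.mem_nhds hnot)
    have h6 : tm C e0 j g =ᶠ[𝓝 y0] fun _ => 0 := by
      filter_upwards [h1] with y hy
      unfold tm
      split_ifs with hs
      · have h7 : C.b j ((C.G j).e (e0.symm y)) = 0 := by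
          by_contra hne
          apply hy
          refine ⟨(C.G j).e (e0.symm y), subset_tsupport _ hne, (C.G j).e.left_inv hs⟩
        rw [h7, zero_mul]
      · rfl
    exact contDiffAt_const.congr_of_eventuallyEq h6

theorem term_formula (C : Cover SF) (G : Generator SF.toFoliation) (j : Fin C.n) {g : E → ℂ}
    (hg : ∀ y ∈ (G.e.symm.trans (C.G j).e).source, g y ≠ 0 ∧
      fderiv ℂ (G.e.symm.trans (C.G j).e) y (G.Z y) = g y • (C.G j).Z (G.e.symm.trans (C.G j).e y))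
    {ψ : ℂ → M} (hψ : SF.toFoliation.IsTangentDisc ψ) {z : ℂ} (hz : z ∈ ball (0 : ℂ) 1)
    (hzG : ψ z ∈ G.e.source) (hzj : ψ z ∈ (C.G j).e.source) {a : ℂ}
    (ha : HasDerivAt (fun t => G.e (ψ t)) (a • G.Z (G.e (ψ z))) z) :
    C.b j ((C.G j).e (ψ z)) * ‖deriv (fun t => (C.G j).e (ψ t)) z‖ ^ 2 /
      ‖(C.G j).Z ((C.G j).e (ψ z))‖ ^ 2 =
    ‖a‖ ^ 2 * (C.b j ((C.G j).e (ψ z)) * ‖g (G.e (ψ z))‖ ^ 2) := by
  have hleft : G.e.symm (G.e (ψ z)) = ψ z := G.e.left_inv hzG
  have hsrc : G.e (ψ z) ∈ (G.e.symm.trans (C.G j).e).source := by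
    rw [OpenPartialHomeomorph.trans_source]
    refine ⟨G.e.map_source hzG, ?_⟩
    show G.e.symm (G.e (ψ z)) ∈ (C.G j).e.source
    rw [hleft]
    exact hzj
  obtain ⟨hg0, hgd⟩ := hg _ hsrc
  have htr : (G.e.symm.trans (C.G j).e) (G.e (ψ z)) = (C.G j).e (ψ z) := by
    show (C.G j).e (G.e.symm (G.e (ψ z))) = _
    rw [hleft]
  rw [htr] at hgd
  have hns : ψ z ∉ SF.toFoliation.sing := (hψ.2 z hz).1
  have hZ : (C.G j).Z ((C.G j).e (ψ z)) ≠ 0 := fun h0 =>
    hns ((((C.G j).gen (ψ z) hzj).1).mpr h0)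
  have hdiff : DifferentiableAt ℂ (G.e.symm.trans (C.G j).e) (G.e (ψ z)) := by
    by_contra hnd
    rw [fderiv_zero_of_not_differentiableAt hnd] at hgd
    exact smul_ne_zero hg0 hZ hgd.symm
  have hcomp : HasDerivAt (fun t => (G.e.symm.trans (C.G j).e) (G.e (ψ t)))
      (fderiv ℂ (G.e.symm.trans (C.G j).e) (G.e (ψ z)) (a • G.Z (G.e (ψ z)))) z :=
    hdiff.hasFDerivAt.comp_hasDerivAt z ha
  have hev : (fun t => (C.G j).e (ψ t)) =ᶠ[𝓝 z] fun t => (G.e.symm.trans (C.G j).e) (G.e (ψ t)) := by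
    have h1 : ∀ᶠ t in 𝓝 z, ψ t ∈ G.e.source :=
      (hψ.contAt hz).eventually (G.e.open_source.mem_nhds hzG)
    filter_upwards [h1] with t ht
    show (C.G j).e (ψ t) = (C.G j).e (G.e.symm (G.e (ψ t)))
    rw [G.e.left_inv ht]
  rw [(hcomp.congr_of_eventuallyEq hev).deriv, map_smul, hgd, norm_smul, norm_smul, mul_pow, mul_pow]
  have hZn : ‖(C.G j).Z ((C.G j).e (ψ z))‖ ≠ 0 := norm_ne_zero_iff.mpr hZ
  field_simp

/-- local formula for `Nn` -/
theorem local_formula (C : Cover SF) (G : Generator SF.toFoliation) (hG : G ∈ SF.gens) :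
    ∃ S : E → ℝ, ContDiffOn ℝ 2 S G.e.target ∧ (∀ y ∈ G.e.target, 0 < S y) ∧
      ∀ ψ : ℂ → M, SF.toFoliation.IsTangentDisc ψ → ∀ z ∈ ball (0 : ℂ) 1, ψ z ∈ G.e.source →
        ∀ a : ℂ, HasDerivAt (fun t => G.e (ψ t)) (a • G.Z (G.e (ψ z))) z →
          Nn C ψ z = ‖a‖ ^ 2 * S (G.e (ψ z)) := by
  classical
  have hc := fun j => SF.compat G hG (C.G j) (C.mem j)
  choose g hgd hg using hc
  refine ⟨fun y => ∑ j, tm C G.e j (g j) y, ?_, ?_, ?_⟩
  · apply ContDiffOn.sum
    intro j _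
    exact tm_smooth C G.mem j (hgd j)
  · intro y hy
    obtain ⟨j, hj, hb⟩ := C.pos (G.e.symm y)
    have h1 : 0 < tm C G.e j (g j) y := by
      unfold tm
      rw [if_pos hj]
      have hsrc : y ∈ (G.e.symm.trans (C.G j).e).source := by
        rw [OpenPartialHomeomorph.trans_source]
        exact ⟨hy, hj⟩
      have := norm_pos_iff.mpr (hg j y hsrc).1
      positivity
    exact Finset.sum_pos' (fun i _ => tm_nonneg C G.e i (g i) y) ⟨j, Finset.mem_univ j, h1⟩
  · intro ψ hψ z hz hzG a ha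
    unfold Nn
    rw [Finset.mul_sum]
    apply Finset.sum_congr rfl
    intro j _
    unfold tm
    have hleft : G.e.symm (G.e (ψ z)) = ψ z := G.e.left_inv hzG
    rw [hleft]
    by_cases hj : ψ z ∈ (C.G j).e.source
    · rw [if_pos hj, if_pos hj]
      exact term_formula C G j (hg j) hψ hz hzG hj ha
    · rw [if_neg hj, if_neg hj, mul_zero]


end Pool.Agent.Helper684.GX.Wf
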