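import Pool.Agent.Helper684.GX.Wf.W3

attribute [local instance] Pool.Agent.Helper684.GX.Nev.leafInst

set_option autoImplicit false

open Set Metric Filter Topology MeasureTheory
open scoped Manifold ComplexConjugate NNReal
open Pool.Agent.Helper684.GX.Nev Pool.Agent.Helper684.GX.Ergo

namespace Pool.Agent.Helper684.GX.Wf


variable {E M : Type*} [NormedAddCommGroup E] [NormedSpace ℂ E] [TopologicalSpace M]
  [ChartedSpace E M] [IsManifold 𝓘(ℂ, E) 1 M] [FiniteDimensional ℂ E] [T2Space M] [CompactSpace M]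
  {SF : SingularFoliation E M}


theorem Nn_pos (C : Cover SF) {ψ : ℂ → M} (hψ : SF.toFoliation.IsTangentDisc ψ) {z : ℂ}
    (hz : z ∈ ball (0 : ℂ) 1) (h0 : discDeriv (E := E) ψ z 1 ≠ 0) : 0 < Nn C ψ z := by
  obtain ⟨G, hG, hGz⟩ := SF.cover (ψ z)
  obtain ⟨a, _, hev⟩ := exists_coeff hψ G hz hGz
  obtain ⟨S, _, hSpos, hSf⟩ := local_formula C G hG
  obtain ⟨h1, h2, h3⟩ := hev.self_of_nhds
  have ha0 : a z ≠ 0 := fun h => h0 (h3 h)
  rw [hSf ψ hψ z hz hGz (a z) h2]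
  have := hSpos _ (G.e.map_source hGz)
  positivity

theorem lap_log_Nn_local (C : Cover SF) (ω : PosForm E M) (p : M) : ∃ U ∈ 𝓝 p, ∃ K : ℝ, 0 ≤ K ∧
    ∀ ψ : ℂ → M, SF.toFoliation.IsTangentDisc ψ → ∀ z ∈ ball (0 : ℂ) 1,
      discDeriv (E := E) ψ z 1 ≠ 0 → ψ z ∈ U →
      ContDiffAt ℝ 2 (fun t => Real.log (Nn C ψ t)) z ∧
        |lap (fun t => Real.log (Nn C ψ t)) z| ≤ K * pullback ω ψ z := by
  haveI : ProperSpace E := FiniteDimensional.proper ℂ E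
  haveI : CompleteSpace E := FiniteDimensional.complete ℂ E
  obtain ⟨G, hG, hGp⟩ := SF.cover p
  obtain ⟨S, hSc, hSpos, hSf⟩ := local_formula C G hG
  have hopen : IsOpen G.e.target := G.e.open_target
  obtain ⟨r, hr, hrt⟩ := Metric.nhds_basis_closedBall.mem_iff.1
    (hopen.mem_nhds (G.e.map_source hGp))
  have hK : IsCompact (closedBall (G.e p) r) := isCompact_closedBall _ _
  set g : E → ℝ := fun y => Real.log (S y) with hg
  have hgc : ContDiffOn ℝ 2 g G.e.target := hSc.log (fun y hy => (hSpos y hy).ne')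
  have hg1 : ContDiffOn ℝ 1 (fderiv ℝ g) G.e.target := hgc.fderiv_of_isOpen hopen (by norm_num)
  have hg2 : ContinuousOn (fderiv ℝ (fderiv ℝ g)) G.e.target :=
    hg1.continuousOn_fderiv_of_isOpen hopen le_rfl
  obtain ⟨K1, hK1⟩ := hK.exists_bound_of_continuousOn (f := fderiv ℝ (fderiv ℝ g)) (hg2.mono hrt)
  obtain ⟨c, hc, hcQ⟩ := exists_Qe_ge ω G.mem hK hrt
  have hK1' : 0 ≤ K1 := (norm_nonneg _).trans (hK1 _ (mem_closedBall_self hr.le))
  refine ⟨G.e.source ∩ G.e ⁻¹' closedBall (G.e p) r, ?_, 2 * K1 / c, by positivity, ?_⟩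
  · exact G.e.continuousAt hGp |>.preimage_mem_nhds (closedBall_mem_nhds _ hr) |>
      Filter.inter_mem (G.e.open_source.mem_nhds hGp)
  intro ψ hψ z hz h0 hzU
  obtain ⟨hzs, hzb⟩ := hzU
  obtain ⟨a, haan, hev⟩ := exists_coeff hψ G hz hzs
  have ha0 : a z ≠ 0 := fun h => h0 (hev.self_of_nhds.2.2 h)
  have han : AnalyticAt ℂ (fun t => G.e (ψ t)) z :=
    analyticAt_chart (fun w hw => hψ.mdiffAt hw) hz ⟨G.mem, hzs⟩
  have htar : G.e (ψ z) ∈ G.e.target := G.e.map_source hzs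
  have hgat : ContDiffAt ℝ 2 g (G.e (ψ z)) := hgc.contDiffAt (hopen.mem_nhds htar)
  have hlog := lap_log_norm haan ha0
  have hhc : ContDiffAt ℝ 2 (fun t => G.e (ψ t)) z := by
    have h1 : ContDiffAt ℂ 2 (fun t => G.e (ψ t)) z := han.contDiffAt
    exact h1.restrict_scalars ℝ
  have hgh : ContDiffAt ℝ 2 (fun t => g (G.e (ψ t))) z :=
    ContDiffAt.comp (g := g) (f := fun t => G.e (ψ t)) z hgat hhc
  have heq : (fun t => Real.log (Nn C ψ t)) =ᶠ[𝓝 z]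
      fun t => Real.log (‖a t‖ ^ 2) + g (G.e (ψ t)) := by
    filter_upwards [hev, isOpen_ball.mem_nhds hz, haan.continuousAt.eventually_ne ha0]
      with t ht htb hat
    have hS := hSpos _ (G.e.map_source ht.1)
    have hat' : ‖a t‖ ^ 2 ≠ 0 := by positivity
    rw [hSf ψ hψ t htb ht.1 (a t) ht.2.1, Real.log_mul hat' hS.ne']
  refine ⟨(hlog.1.add hgh).congr_of_eventuallyEq heq, ?_⟩
  rw [lap_congr heq, lap_add hlog.1 hgh, hlog.2, zero_add, lap_comp_curve hgat han]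
  refine (abs_lap_line_le hgat).trans ?_
  have h1 := hK1 _ hzb
  have h2 := hcQ _ hzb (deriv (fun t => G.e (ψ t)) z)
  rw [pullback_chart ω (hψ.mdiffAt hz) ⟨G.mem, hzs⟩]
  calc 2 * ‖fderiv ℝ (fderiv ℝ g) (G.e (ψ z))‖ * ‖deriv (fun t => G.e (ψ t)) z‖ ^ 2
      ≤ 2 * K1 * ‖deriv (fun t => G.e (ψ t)) z‖ ^ 2 := by gcongr
    _ = 2 * K1 / c * (c * ‖deriv (fun t => G.e (ψ t)) z‖ ^ 2) := by field_simp
    _ ≤ _ := by gcongr

/-- the curvature of the metric is bounded -/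
theorem lap_log_Nn (C : Cover SF) (ω : PosForm E M) : ∃ K : ℝ, ∀ ψ : ℂ → M,
    SF.toFoliation.IsTangentDisc ψ → ∀ z ∈ ball (0 : ℂ) 1, discDeriv (E := E) ψ z 1 ≠ 0 →
      ContDiffAt ℝ 2 (fun t => Real.log (Nn C ψ t)) z ∧
        |lap (fun t => Real.log (Nn C ψ t)) z| ≤ K * pullback ω ψ z := by
  have h := isCompact_univ.induction_on (X := M) (s := univ)
    (p := fun U => ∃ K : ℝ, 0 ≤ K ∧ ∀ ψ : ℂ → M, SF.toFoliation.IsTangentDisc ψ →
      ∀ z ∈ ball (0 : ℂ) 1, discDeriv (E := E) ψ z 1 ≠ 0 → ψ z ∈ U →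
      ContDiffAt ℝ 2 (fun t => Real.log (Nn C ψ t)) z ∧
        |lap (fun t => Real.log (Nn C ψ t)) z| ≤ K * pullback ω ψ z)
    ⟨0, le_rfl, fun ψ _ z _ _ hz => absurd hz (Set.notMem_empty _)⟩
    (by
      rintro s t hst ⟨K, hK, h⟩
      exact ⟨K, hK, fun ψ hψ z hz h0 hzs => h ψ hψ z hz h0 (hst hzs)⟩)
    (by
      rintro s t ⟨K, hK, h⟩ ⟨K', hK', h'⟩
      refine ⟨max K K', le_max_of_le_left hK, fun ψ hψ z hz h0 hzs => ?_⟩
      rcases hzs with hzs | hzs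
      · obtain ⟨h1, h2⟩ := h ψ hψ z hz h0 hzs
        exact ⟨h1, h2.trans (mul_le_mul_of_nonneg_right (le_max_left _ _)
          (pullback_nonneg ω ψ z))⟩
      · obtain ⟨h1, h2⟩ := h' ψ hψ z hz h0 hzs
        exact ⟨h1, h2.trans (mul_le_mul_of_nonneg_right (le_max_right _ _)
          (pullback_nonneg ω ψ z))⟩)
    (by
      intro p _
      obtain ⟨U, hU, K, hK, h⟩ := lap_log_Nn_local C ω p
      exact ⟨U, mem_nhdsWithin_of_mem_nhds hU, K, hK, h⟩)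
  obtain ⟨K, _, h⟩ := h
  exact ⟨K, fun ψ hψ z hz h0 => h ψ hψ z hz h0 (Set.mem_univ _)⟩


end Pool.Agent.Helper684.GX.Wf
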