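import Pool.Agent.Helper684.GX.Wf.W4

attribute [local instance] Pool.Agent.Helper684.GX.Nev.leafInst

set_option autoImplicit false

open Set Metric Filter Topology MeasureTheory
open scoped Manifold ComplexConjugate NNReal
open Pool.Agent.Helper684.GX.Nev Pool.Agent.Helper684.GX.Ergo

namespace Pool.Agent.Helper684.GX.Wf


variable {E M : Type*} [NormedAddCommGroup E] [NormedSpace ℂ E] [TopologicalSpace M]
  [ChartedSpace E M] [IsManifold 𝓘(ℂ, E) 1 M] [FiniteDimensional ℂ E] [T2Space M] [CompactSpace M]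
  {SF : SingularFoliation E M}


/-- change of base point in a universal covering -/
theorem Nn_base (C : Cover SF) {φ φ' : ℂ → M} (hφ : SF.toFoliation.IsUniversalCovering φ)
    (hφ' : SF.toFoliation.IsUniversalCovering φ') {ξ : ℂ} (hξ : ξ ∈ ball (0 : ℂ) 1)
    (h : φ' 0 = φ ξ) : Nn C φ' 0 = Nn C φ ξ * (1 - ‖ξ‖ ^ 2) ^ 2 := by
  have hmob0 : mob ξ 0 = ξ := by simp [mob]
  have hU := universalCovering_mob hφ hξ
  obtain ⟨c, hc, hcz⟩ := universalCovering_unique hU hφ' (by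
    show φ (mob ξ 0) = φ' 0
    rw [hmob0, h])
  have hev : φ' =ᶠ[𝓝 0] (fun t => φ (mob ξ (c * t))) := by
    filter_upwards [isOpen_ball.mem_nhds (mem_ball_self (x := (0:ℂ)) one_pos)] with t ht
    exact hcz t ht
  rw [Nn_congr C hev]
  have hh : HasDerivAt (fun t : ℂ => mob ξ (c * t)) (c * (1 - ξ * conj ξ)) 0 := by
    unfold mob
    have h1 : HasDerivAt (fun t : ℂ => c * t + ξ) c 0 := by
      simpa using ((hasDerivAt_id (0:ℂ)).const_mul c).add_const ξ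
    have h2 : HasDerivAt (fun t : ℂ => 1 + conj ξ * (c * t)) (conj ξ * c) 0 := by
      have := (((hasDerivAt_id (0:ℂ)).const_mul c).const_mul (conj ξ)).const_add 1
      simpa using this
    have h3 := h1.div h2 (by simp)
    refine h3.congr_deriv ?_
    simp only [mul_zero, zero_add, add_zero, mul_one, one_pow, div_one]
    ring
  have hd : DifferentiableAt ℂ (fun t : ℂ => mob ξ (c * t)) 0 := hh.differentiableAt
  have hz0 : mob ξ (c * 0) = ξ := by rw [mul_zero, hmob0]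
  have hcomp := Nn_comp C hφ.tangent (h := fun t : ℂ => mob ξ (c * t)) (z := 0) hd (by
    rw [hz0]; exact hξ)
  rw [hcomp, hh.deriv, hz0]
  have hn : ‖c * (1 - ξ * conj ξ)‖ = 1 - ‖ξ‖ ^ 2 := by
    rw [norm_mul, hc, one_mul, Complex.mul_conj, Complex.normSq_eq_norm_sq]
    have hlt : ‖ξ‖ < 1 := by simpa using hξ
    have h0 : 0 ≤ 1 - ‖ξ‖ ^ 2 := by nlinarith [norm_nonneg ξ]
    rw [show (1 - ((‖ξ‖ ^ 2 : ℝ) : ℂ)) = ((1 - ‖ξ‖ ^ 2 : ℝ) : ℂ) by push_cast; ring]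
    rw [Complex.norm_real, Real.norm_eq_abs, abs_of_nonneg h0]
  rw [hn]
  ring

/-- Schwarz lemma -/
theorem Nn_schwarz (C : Cover SF) {φ ψ : ℂ → M} (hφ : SF.toFoliation.IsUniversalCovering φ)
    (hψ : SF.toFoliation.IsTangentDisc ψ) (h : ψ 0 = φ 0) :
    ∃ f : ℂ → ℂ, DifferentiableOn ℂ f (ball 0 1) ∧ MapsTo f (ball 0 1) (ball 0 1) ∧ f 0 = 0 ∧
      (∀ t ∈ ball (0 : ℂ) 1, φ (f t) = ψ t) ∧ ‖deriv f 0‖ ≤ 1 ∧
      (∀ t ∈ ball (0 : ℂ) 1, Nn C ψ t = ‖deriv f t‖ ^ 2 * Nn C φ (f t)) := by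
  obtain ⟨f, hfc, hfm, hf0, hff⟩ := exists_lift hφ hψ (mem_ball_self (x := (0:ℂ)) one_pos) h
  have hfd : DifferentiableOn ℂ f (ball 0 1) := lift_differentiable hφ hψ hfc hfm hff
  refine ⟨f, hfd, hfm, hf0, hff, ?_, ?_⟩
  · have := schwarz_pick hfd hfm
    rw [hf0] at this
    simpa using this
  · intro t ht
    have hev : ψ =ᶠ[𝓝 t] (fun z => φ (f z)) := by
      filter_upwards [isOpen_ball.mem_nhds ht] with z hz
      exact (hff z hz).symm
    rw [Nn_congr C hev]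
    exact Nn_comp C hφ.tangent (hfd.differentiableAt (isOpen_ball.mem_nhds ht)) (hfm ht)


end Pool.Agent.Helper684.GX.Wf
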