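import Pool.Agent.Helper684.GX.Wf.W8

attribute [local instance] Pool.Agent.Helper684.GX.Nev.leafInst

set_option autoImplicit false

open Set Metric Filter Topology MeasureTheory
open scoped Manifold ComplexConjugate NNReal
open Pool.Agent.Helper684.GX.Nev Pool.Agent.Helper684.GX.Ergo

namespace Pool.Agent.Helper684.GX.Wf


variable {E M : Type*} [NormedAddCommGroup E] [NormedSpace ℂ E] [TopologicalSpace M]
  [ChartedSpace E M] [IsManifold 𝓘(ℂ, E) 1 M] [FiniteDimensional ℂ E] [T2Space M] [CompactSpace M]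
  {SF : SingularFoliation E M}



theorem second_bound {f : ℂ → ℂ} (hf : DifferentiableOn ℂ f (ball 0 1))
    (hm : MapsTo f (ball 0 1) (ball 0 1)) : ‖deriv (deriv f) 0‖ ≤ 8 := by
  have h1 : ∀ z ∈ sphere (0:ℂ) (1/2), ‖deriv f z‖ ≤ 4 := by
    intro z hz
    have hz2 : ‖z‖ = 1/2 := by simpa using hz
    have hsub : closedBall z (1/4) ⊆ ball (0:ℂ) 1 := by
      intro w hw
      rw [mem_closedBall, dist_eq_norm] at hw
      rw [mem_ball_zero_iff]
      have : ‖w‖ ≤ ‖w - z‖ + ‖z‖ := by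
        have := norm_add_le (w - z) z
        rwa [sub_add_cancel] at this
      linarith
    have h2 := Complex.norm_deriv_le_of_forall_mem_sphere_norm_le (c := z) (R := 1/4) (C := 1)
      (f := f) (by norm_num) (DifferentiableOn.diffContOnCl (by
        rw [closure_ball z (by norm_num)]
        exact hf.mono hsub)) (by
        intro w hw
        have h3 := hm (hsub (sphere_subset_closedBall hw))
        rw [mem_ball_zero_iff] at h3
        exact h3.le)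
    linarith
  have hd : DifferentiableOn ℂ (deriv f) (ball 0 1) := hf.deriv isOpen_ball
  have h2 := Complex.norm_deriv_le_of_forall_mem_sphere_norm_le (c := 0) (R := 1/2) (C := 4)
      (f := deriv f) (by norm_num) (DifferentiableOn.diffContOnCl (by
        rw [closure_ball (0:ℂ) (by norm_num)]
        exact hd.mono (closedBall_subset_ball (by norm_num)))) h1
  linarith

theorem real_of_deriv {G : Type*} [NormedAddCommGroup G] [NormedSpace ℂ G] {f : ℂ → G} {f' : G}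
    {z : ℂ} (h : HasDerivAt f f' z) :
    ∃ D : ℂ →L[ℝ] G, HasFDerivAt f D z ∧ ∀ v, D v = v • f' := by
  refine ⟨_, h.hasFDerivAt.restrictScalars ℝ, ?_⟩
  intro v
  simp

theorem local_grad (C : Cover SF) (K : ℝ) (p : M) : ∃ A : ℝ, ∃ V ∈ 𝓝 p, 0 ≤ A ∧
    ∀ φ : ℂ → M, SF.toFoliation.IsUniversalCovering φ → φ 0 ∈ V → Nn C φ 0 ≤ K →
      ‖fderiv ℝ (fun t => Real.log (Nn C φ t)) 0‖ ≤ A := by
  have : ProperSpace E := FiniteDimensional.proper ℂ E
  by_cases hK : 0 < K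
  swap
  · refine ⟨0, univ, univ_mem, le_rfl, ?_⟩
    intro φ hφ _ hle
    exfalso
    have := Nn_pos C hφ.tangent (mem_ball_self one_pos) (hφ.immersion 0 (mem_ball_self one_pos))
    linarith
  obtain ⟨G, hG, hpG⟩ := SF.cover p
  obtain ⟨R, hR, hRt⟩ := Metric.nhds_basis_closedBall.mem_iff.1
    (G.e.open_target.mem_nhds (G.e.map_source hpG))
  obtain ⟨⟨ρ, hρ, V, hV, hflow⟩, -⟩ := exists_flowNhd G hpG hR hRt
  obtain ⟨S, hSd, hSpos, hSf⟩ := local_formula C G hG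
  have hcomp : IsCompact (closedBall (G.e p) R) := isCompact_closedBall _ _
  have hne : (closedBall (G.e p) R).Nonempty := ⟨G.e p, mem_closedBall_self hR.le⟩
  obtain ⟨y1, hy1, hmin⟩ := hcomp.exists_isMinOn hne (hSd.continuousOn.mono hRt)
  have hs0 : 0 < S y1 := hSpos y1 (hRt hy1)
  have hLd : ContDiffOn ℝ 2 (fun y => Real.log (S y)) G.e.target :=
    hSd.log (fun y hy => (hSpos y hy).ne')
  have hLc : ContinuousOn (fderiv ℝ (fun y => Real.log (S y))) G.e.target :=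
    hLd.continuousOn_fderiv_of_isOpen G.e.open_target (by norm_num)
  obtain ⟨D1, hD1⟩ := hcomp.exists_bound_of_continuousOn (hLc.mono hRt)
  obtain ⟨z1, hz1⟩ := hcomp.exists_bound_of_continuousOn (G.hol.continuousOn.mono hRt)
  have hD10 : 0 ≤ D1 := (norm_nonneg _).trans (hD1 _ hy1)
  have hz10 : 0 ≤ z1 := (norm_nonneg _).trans (hz1 _ hy1)
  obtain ⟨m, hm⟩ : ∃ m, m = Real.sqrt (ρ ^ 2 * S y1 / K) := ⟨_, rfl⟩
  have hm0 : 0 < m := by rw [hm]; exact Real.sqrt_pos.2 (by positivity)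
  have hm2 : m ^ 2 = ρ ^ 2 * S y1 / K := by rw [hm]; exact Real.sq_sqrt (by positivity)
  refine ⟨(D1 * (ρ * z1) + 16 / m) / m, V, hV, by positivity, ?_⟩
  intro φ hφ hφV hNK
  by_cases hdiff : DifferentiableAt ℝ (fun t => Real.log (Nn C φ t)) 0
  swap
  · rw [fderiv_zero_of_not_differentiableAt hdiff, norm_zero]
    positivity
  have h0 : (0:ℂ) ∈ ball (0:ℂ) 1 := mem_ball_self one_pos
  have hns : φ 0 ∉ SF.sing := (hφ.tangent.2 0 h0).1
  obtain ⟨ψ, hψ, hψ0, hψt⟩ := hflow (φ 0) hφV hns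
  have hNψ : ∀ t ∈ ball (0:ℂ) 1, Nn C ψ t = ρ ^ 2 * S (G.e (ψ t)) := by
    intro t ht
    have := hSf ψ hψ t ht (hψt t ht).1 (ρ : ℂ) (hψt t ht).2.2
    rw [this, Complex.norm_real, Real.norm_eq_abs, sq_abs]
  have hNψpos : ∀ t ∈ ball (0:ℂ) 1, 0 < Nn C ψ t := by
    intro t ht
    rw [hNψ t ht]
    have := hSpos _ (hRt (hψt t ht).2.1)
    positivity
  obtain ⟨f, hfd, hfm, hf0, hflift, hf1, hfN⟩ := Nn_schwarz C hφ hψ hψ0
  -- derivative of `log Nn ψ`
  obtain ⟨D, hD, hDv⟩ := real_of_deriv (hψt 0 h0).2.2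
  have hy0 : G.e (ψ 0) ∈ closedBall (G.e p) R := (hψt 0 h0).2.1
  have hLS : HasFDerivAt (fun y => Real.log (S y)) (fderiv ℝ (fun y => Real.log (S y)) (G.e (ψ 0)))
      (G.e (ψ 0)) := by
    have h5 : ContDiffAt ℝ 2 (fun y => Real.log (S y)) (G.e (ψ 0)) :=
      hLd.contDiffAt (G.e.open_target.mem_nhds (hRt hy0))
    exact (h5.differentiableAt (by norm_num)).hasFDerivAt
  have hψL : HasFDerivAt (fun t => Real.log (Nn C ψ t))
      ((fderiv ℝ (fun y => Real.log (S y)) (G.e (ψ 0))).comp D) 0 := by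
    have h5 := (hLS.comp 0 hD).const_add (Real.log (ρ ^ 2))
    refine h5.congr_of_eventuallyEq ?_
    filter_upwards [isOpen_ball.mem_nhds h0] with t ht
    rw [hNψ t ht, Real.log_mul (by positivity) (hSpos _ (hRt (hψt t ht).2.1)).ne']
    rfl
  -- derivative of the other expression
  have hfdiff : ∀ t ∈ ball (0:ℂ) 1, DifferentiableAt ℂ f t := fun t ht =>
    hfd.differentiableAt (isOpen_ball.mem_nhds ht)
  obtain ⟨F', hF', hFv⟩ := real_of_deriv (hfdiff 0 h0).hasDerivAt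
  have hf2 : DifferentiableAt ℂ (deriv f) 0 :=
    (hfd.deriv isOpen_ball).differentiableAt (isOpen_ball.mem_nhds h0)
  obtain ⟨A', hA', hAv⟩ := real_of_deriv hf2.hasDerivAt
  have hprod : ∀ t ∈ ball (0:ℂ) 1, ‖deriv f t‖ ^ 2 ≠ 0 ∧ Nn C φ (f t) ≠ 0 := by
    intro t ht
    have h5 := hNψpos t ht
    rw [hfN t ht] at h5
    exact ⟨fun h => by rw [h, zero_mul] at h5; exact lt_irrefl _ h5,
      fun h => by rw [h, mul_zero] at h5; exact lt_irrefl _ h5⟩
  have hfd0 : deriv f 0 ≠ 0 := by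
    intro h
    apply (hprod 0 h0).1
    rw [h]; simp
  have hlog2 : HasFDerivAt (fun t => Real.log (‖deriv f t‖ ^ 2))
      ((‖deriv f 0‖ ^ 2)⁻¹ • (2 • (innerSL ℝ (deriv f 0)).comp A')) 0 :=
    (hA'.norm_sq).log (hprod 0 h0).1
  have hφd : HasFDerivAt (fun t => Real.log (Nn C φ t))
      (fderiv ℝ (fun t => Real.log (Nn C φ t)) 0) (f 0) := by
    rw [hf0]; exact hdiff.hasFDerivAt
  have hψL2 : HasFDerivAt (fun t => Real.log (Nn C ψ t))
      (((‖deriv f 0‖ ^ 2)⁻¹ • (2 • (innerSL ℝ (deriv f 0)).comp A')) +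
        (fderiv ℝ (fun t => Real.log (Nn C φ t)) 0).comp F') 0 := by
    have h5 := hlog2.add (hφd.comp 0 hF')
    refine h5.congr_of_eventuallyEq ?_
    filter_upwards [isOpen_ball.mem_nhds h0] with t ht
    rw [hfN t ht, Real.log_mul (hprod t ht).1 (hprod t ht).2]
    rfl
  have huniq := hψL.unique hψL2
  -- lower bound for the derivative
  have hfm2 : m ≤ ‖deriv f 0‖ := by
    have h5 := hfN 0 h0
    rw [hNψ 0 h0, hf0] at h5
    have h6 : S y1 ≤ S (G.e (ψ 0)) := hmin hy0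
    have h7 : ρ ^ 2 * S y1 ≤ ‖deriv f 0‖ ^ 2 * K := by
      calc ρ ^ 2 * S y1 ≤ ρ ^ 2 * S (G.e (ψ 0)) := mul_le_mul_of_nonneg_left h6 (by positivity)
        _ = ‖deriv f 0‖ ^ 2 * Nn C φ 0 := h5
        _ ≤ ‖deriv f 0‖ ^ 2 * K := mul_le_mul_of_nonneg_left hNK (by positivity)
    have h8 : m ^ 2 ≤ ‖deriv f 0‖ ^ 2 := by
      rw [hm2, div_le_iff₀ hK]; exact h7
    exact le_of_sq_le_sq h8 (norm_nonneg _)
  have hfpos : 0 < ‖deriv f 0‖ := lt_of_lt_of_le hm0 hfm2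
  refine ContinuousLinearMap.opNorm_le_bound _ (by positivity) ?_
  intro w
  obtain ⟨v, hv⟩ : ∃ v, v = w / deriv f 0 := ⟨_, rfl⟩
  have hvw : F' v = w := by
    rw [hFv, hv, smul_eq_mul, div_mul_cancel₀ _ hfd0]
  have hvn : ‖v‖ ≤ ‖w‖ / m := by
    rw [hv, norm_div]
    exact div_le_div_of_nonneg_left (norm_nonneg _) hm0 hfm2
  have h9 := congrArg (fun L => L v) huniq
  simp only [ContinuousLinearMap.comp_apply, add_apply,
    smul_apply] at h9
  rw [hvw] at h9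
  have h10 : ‖(fderiv ℝ (fun y => Real.log (S y)) (G.e (ψ 0))) (D v)‖ ≤ D1 * (ρ * z1) * ‖v‖ := by
    refine ((fderiv ℝ (fun y => Real.log (S y)) (G.e (ψ 0))).le_opNorm _).trans ?_
    have h11 : ‖D v‖ ≤ ρ * z1 * ‖v‖ := by
      rw [hDv, norm_smul, norm_smul, Complex.norm_real, Real.norm_eq_abs, abs_of_pos hρ]
      have := hz1 _ hy0
      have h12 : ‖v‖ * (ρ * ‖G.Z (G.e (ψ 0))‖) ≤ ‖v‖ * (ρ * z1) :=
        mul_le_mul_of_nonneg_left (mul_le_mul_of_nonneg_left this hρ.le) (norm_nonneg _)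
      linarith
    calc _ ≤ D1 * ‖D v‖ := mul_le_mul_of_nonneg_right (hD1 _ hy0) (norm_nonneg _)
      _ ≤ D1 * (ρ * z1 * ‖v‖) := mul_le_mul_of_nonneg_left h11 hD10
      _ = _ := by ring
  have h13 : ‖(‖deriv f 0‖ ^ 2)⁻¹ • (2 : ℕ) • (innerSL ℝ (deriv f 0)) (A' v)‖ ≤
      16 / m * ‖v‖ := by
    have h14 : ‖(innerSL ℝ (deriv f 0)) (A' v)‖ ≤ ‖deriv f 0‖ * (8 * ‖v‖) := by
      rw [innerSL_apply_apply]
      refine (norm_inner_le_norm _ _).trans ?_
      refine mul_le_mul_of_nonneg_left ?_ (norm_nonneg _)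
      rw [hAv, norm_smul]
      have := second_bound hfd hfm
      have := mul_le_mul_of_nonneg_left this (norm_nonneg v)
      linarith
    rw [norm_smul, nsmul_eq_mul, norm_mul]
    have h15 : ‖((2:ℕ):ℝ)‖ = 2 := by simp
    rw [h15, norm_inv, norm_pow, norm_norm]
    have h16 : (‖deriv f 0‖ ^ 2)⁻¹ * (2 * ‖(innerSL ℝ (deriv f 0)) (A' v)‖)
        ≤ (‖deriv f 0‖ ^ 2)⁻¹ * (2 * (‖deriv f 0‖ * (8 * ‖v‖))) :=
      mul_le_mul_of_nonneg_left (by linarith) (by positivity)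
    refine h16.trans ?_
    have h17 : (‖deriv f 0‖ ^ 2)⁻¹ * (2 * (‖deriv f 0‖ * (8 * ‖v‖))) = 16 / ‖deriv f 0‖ * ‖v‖ := by
      field_simp
      ring
    rw [h17]
    exact mul_le_mul_of_nonneg_right (div_le_div_of_nonneg_left (by norm_num) hm0 hfm2)
      (norm_nonneg _)
  have h18 : (fderiv ℝ (fun t => Real.log (Nn C φ t)) 0) w
      = (fderiv ℝ (fun y => Real.log (S y)) (G.e (ψ 0))) (D v) -
        (‖deriv f 0‖ ^ 2)⁻¹ • (2 : ℕ) • (innerSL ℝ (deriv f 0)) (A' v) := by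
    rw [h9]; simp
  rw [h18]
  refine (norm_sub_le _ _).trans ?_
  have h19 : ‖(fderiv ℝ (fun y => Real.log (S y)) (G.e (ψ 0))) (D v)‖ +
      ‖(‖deriv f 0‖ ^ 2)⁻¹ • (2 : ℕ) • (innerSL ℝ (deriv f 0)) (A' v)‖
      ≤ (D1 * (ρ * z1) + 16 / m) * ‖v‖ := by linarith
  refine h19.trans ?_
  have h20 : (D1 * (ρ * z1) + 16 / m) * ‖v‖ ≤ (D1 * (ρ * z1) + 16 / m) * (‖w‖ / m) :=
    mul_le_mul_of_nonneg_left hvn (by positivity)
  refine h20.trans (le_of_eq ?_)
  ring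

/-- gradient bound on sublevel sets -/
theorem grad_log_Nn (C : Cover SF) (K : ℝ) : ∃ A : ℝ, ∀ φ : ℂ → M,
    SF.toFoliation.IsUniversalCovering φ → Nn C φ 0 ≤ K →
      ‖fderiv ℝ (fun t => Real.log (Nn C φ t)) 0‖ ≤ A := by
  choose A V hV hA hφ using local_grad (SF := SF) C K
  obtain ⟨s, -, hs⟩ := isCompact_univ.elim_nhds_subcover V (fun p _ => hV p)
  refine ⟨∑ p ∈ s, A p, ?_⟩
  intro φ hcov hle
  obtain ⟨p, hp, hpV⟩ := Set.mem_iUnion₂.1 (hs (Set.mem_univ (φ 0)))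
  exact (hφ p φ hcov hpV hle).trans (Finset.single_le_sum (fun q _ => hA q) hp)


end Pool.Agent.Helper684.GX.Wf
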